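import Mathlib

/-! MP_df6954_nt, piece P6: for fixed `k` and all large `N` the functions
`U ↦ (U^(N i) (U+1)^(N j) (U-1)^(N l))⁻¹`, `i, j, l < k`, are linearly independent on `U > 1`. -/

set_option autoImplicit false

namespace Pool.Agent.K4H92.DF

open Polynomial Finset

/-- the basic monomial -/
noncomputable def gm {k : ℕ} (s : Fin k × Fin k × Fin k) (U : ℝ) : ℝ :=
  U ^ (s.1 : ℕ) * (U + 1) ^ (s.2.1 : ℕ) * (U - 1) ^ (s.2.2 : ℕ)

lemma gm_pos {k : ℕ} (s : Fin k × Fin k × Fin k) {U : ℝ} (hU : 1 < U) : 0 < gm s U := by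
  unfold gm
  have h1 : 0 < U := by linarith
  have h2 : 0 < U + 1 := by linarith
  have h3 : 0 < U - 1 := by linarith
  positivity

/-- its polynomial -/
noncomputable def Gp {k : ℕ} (s : Fin k × Fin k × Fin k) : ℝ[X] :=
  (X - C 0) ^ (s.1 : ℕ) * (X - C (-1)) ^ (s.2.1 : ℕ) * (X - C 1) ^ (s.2.2 : ℕ)

lemma Gp_monic {k : ℕ} (s : Fin k × Fin k × Fin k) : (Gp s).Monic :=
  (((monic_X_sub_C _).pow _).mul ((monic_X_sub_C _).pow _)).mul ((monic_X_sub_C _).pow _)

lemma Gp_eval {k : ℕ} (s : Fin k × Fin k × Fin k) (U : ℝ) : (Gp s).eval U = gm s U := by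
  simp [Gp, gm]

lemma Gp_roots {k : ℕ} (s : Fin k × Fin k × Fin k) :
    (Gp s).roots = (s.1 : ℕ) • {(0 : ℝ)} + (s.2.1 : ℕ) • {(-1 : ℝ)} + (s.2.2 : ℕ) • {(1 : ℝ)} := by
  have hne : Gp s ≠ 0 := (Gp_monic s).ne_zero
  unfold Gp at hne ⊢
  rw [roots_mul hne, roots_mul (left_ne_zero_of_mul hne), roots_pow, roots_pow, roots_pow,
    roots_X_sub_C, roots_X_sub_C, roots_X_sub_C]

lemma Gp_inj {k : ℕ} {s t : Fin k × Fin k × Fin k} (h : Gp s = Gp t) : s = t := by
  have h' := congrArg Polynomial.roots h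
  rw [Gp_roots, Gp_roots] at h'
  have h0 := congrArg (Multiset.count (0 : ℝ)) h'
  have h1 := congrArg (Multiset.count (-1 : ℝ)) h'
  have h2 := congrArg (Multiset.count (1 : ℝ)) h'
  simp only [Multiset.count_add, Multiset.count_nsmul, Multiset.count_singleton] at h0 h1 h2
  norm_num at h0 h1 h2
  obtain ⟨a, b, c⟩ := s
  obtain ⟨a', b', c'⟩ := t
  simp only [Prod.mk.injEq]
  exact ⟨Fin.ext h0, Fin.ext h1, Fin.ext h2⟩

lemma bad_finite {k : ℕ} {s t : Fin k × Fin k × Fin k} (hst : s ≠ t) {A B : ℝ} (_ : 0 < A)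
    (hB : 0 < B) : {u : ℝ | 1 < u ∧ (gm s u)⁻¹ * A = (gm t u)⁻¹ * B}.Finite := by
  have hP : C A * Gp t - C B * Gp s ≠ 0 := by
    intro h0
    have h1 : C A * Gp t = C B * Gp s := sub_eq_zero.1 h0
    have h2 := congrArg leadingCoeff h1
    rw [leadingCoeff_mul, leadingCoeff_mul, (Gp_monic t).leadingCoeff, (Gp_monic s).leadingCoeff,
      leadingCoeff_C, leadingCoeff_C, mul_one, mul_one] at h2
    rw [h2] at h1
    have h3 : Gp t = Gp s := mul_left_cancel₀ (by simpa using hB.ne') h1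
    exact hst (Gp_inj h3).symm
  refine ((C A * Gp t - C B * Gp s).roots.toFinset.finite_toSet).subset ?_
  rintro u ⟨hu, he⟩
  have hs := (gm_pos s hu).ne'
  have ht := (gm_pos t hu).ne'
  simp only [Finset.mem_coe, Multiset.mem_toFinset, mem_roots hP, IsRoot.def, eval_sub, eval_mul,
    eval_C, Gp_eval]
  field_simp at he
  linarith

/-- generic points -/
lemma exists_points (k : ℕ) : ∀ r : ℕ, ∃ U : Fin r → ℝ, (∀ q, 1 < U q) ∧
    ∀ σ τ : Fin r → Fin k × Fin k × Fin k,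
      (∏ q, (gm (σ q) (U q))⁻¹) = (∏ q, (gm (τ q) (U q))⁻¹) → σ = τ := by
  intro r
  induction r with
  | zero => exact ⟨fun q => q.elim0, fun q => q.elim0, fun σ τ _ => funext fun q => q.elim0⟩
  | succ r ih =>
    obtain ⟨U, hU1, hU⟩ := ih
    -- the bad set
    have hpos : ∀ σ : Fin r → Fin k × Fin k × Fin k, 0 < ∏ q, (gm (σ q) (U q))⁻¹ := fun σ =>
      Finset.prod_pos fun q _ => inv_pos.2 (gm_pos _ (hU1 q))
    let Bad : Set ℝ := ⋃ (s : Fin k × Fin k × Fin k), ⋃ (t : Fin k × Fin k × Fin k),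
      ⋃ (_ : s ≠ t), ⋃ (σ : Fin r → Fin k × Fin k × Fin k), ⋃ (τ : Fin r → Fin k × Fin k × Fin k),
        {u : ℝ | 1 < u ∧ (gm s u)⁻¹ * (∏ q, (gm (σ q) (U q))⁻¹) =
          (gm t u)⁻¹ * (∏ q, (gm (τ q) (U q))⁻¹)}
    have hBad : Bad.Finite := by
      refine Set.finite_iUnion fun s => Set.finite_iUnion fun t => Set.finite_iUnion fun hst =>
        Set.finite_iUnion fun σ => Set.finite_iUnion fun τ => ?_
      exact bad_finite hst (hpos σ) (hpos τ)
    obtain ⟨u, hu1, hu2⟩ := (Set.Ioi_infinite (1 : ℝ)).exists_notMem_finset hBad.toFinset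
    have hu2' : u ∉ Bad := fun h => hu2 (by simpa using h)
    refine ⟨Fin.cons u U, ?_, ?_⟩
    · intro q
      refine Fin.cases ?_ ?_ q
      · simpa using hu1
      · intro i; simpa using hU1 i
    · intro σ τ h
      rw [Fin.prod_univ_succ, Fin.prod_univ_succ] at h
      simp only [Fin.cons_zero, Fin.cons_succ] at h
      have h0 : σ 0 = τ 0 := by
        by_contra hne
        apply hu2'
        simp only [Bad, Set.mem_iUnion]
        exact ⟨σ 0, τ 0, hne, fun q => σ q.succ, fun q => τ q.succ, hu1, h⟩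
      rw [h0] at h
      have h1 := mul_left_cancel₀ (inv_pos.2 (gm_pos (τ 0) hu1)).ne' h
      have h2 := hU (fun q => σ q.succ) (fun q => τ q.succ) h1
      funext q
      refine Fin.cases h0 (fun i => ?_) q
      exact congrFun h2 i

/-- exponential sums with distinct positive bases do not vanish for large exponents -/
lemma expsum_ne {ι : Type*} [Fintype ι] [Nonempty ι] (W : ι → ℝ) (hW : ∀ i, 0 < W i)
    (hinj : Function.Injective W) (e : ι → ℝ) (he : ∀ i, e i ≠ 0) :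
    ∃ N1 : ℕ, ∀ N : ℕ, N1 ≤ N → ∑ i, e i * W i ^ N ≠ 0 := by
  classical
  obtain ⟨i0, hi0⟩ := Finite.exists_max W
  have hlim : Filter.Tendsto (fun N : ℕ => ∑ i, e i * (W i / W i0) ^ N) Filter.atTop
      (nhds (∑ i, if i = i0 then e i0 else 0)) := by
    refine tendsto_finsetSum _ fun i _ => ?_
    by_cases h : i = i0
    · subst h
      simp only [if_true]
      rw [div_self (hW i).ne']
      simp
    · rw [if_neg h]
      have hlt : W i / W i0 < 1 := by
        rw [div_lt_one (hW i0)]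
        exact lt_of_le_of_ne (hi0 i) fun h' => h (hinj h')
      have h3 := (tendsto_pow_atTop_nhds_zero_of_lt_one (div_pos (hW i) (hW i0)).le hlt).const_mul
        (e i)
      simpa using h3
  rw [Finset.sum_ite_eq' Finset.univ i0 (fun _ => e i0)] at hlim
  simp only [Finset.mem_univ, if_true] at hlim
  have hev := hlim.eventually_ne (he i0)
  obtain ⟨N1, hN1⟩ := Filter.eventually_atTop.1 hev
  refine ⟨N1, fun N hN h => hN1 N hN ?_⟩
  have h2 : ∑ i, e i * (W i / W i0) ^ N = (∑ i, e i * W i ^ N) / W i0 ^ N := by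
    rw [Finset.sum_div]
    refine Finset.sum_congr rfl fun i _ => ?_
    rw [div_pow, mul_div_assoc]
  rw [h2, h, zero_div]

/-- Piece P6. -/
theorem indep (k : ℕ) : ∃ N1 : ℕ, ∀ N : ℕ, N1 ≤ N → ∀ c : Fin k × Fin k × Fin k → ℝ,
    (∀ U : ℝ, 1 < U → ∑ s, c s * (U ^ (N * (s.1 : ℕ)) * (U + 1) ^ (N * (s.2.1 : ℕ)) *
      (U - 1) ^ (N * (s.2.2 : ℕ)))⁻¹ = 0) → ∀ s, c s = 0 := by
  classical
  let M := Fintype.card (Fin k × Fin k × Fin k)
  let e : Fin M ≃ (Fin k × Fin k × Fin k) := (Fintype.equivFin _).symm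
  obtain ⟨U, hU1, hU⟩ := exists_points k M
  let W : Equiv.Perm (Fin M) → ℝ := fun σ => ∏ r, (gm (e (σ r)) (U r))⁻¹
  have hW : ∀ σ, 0 < W σ := fun σ => Finset.prod_pos fun q _ => inv_pos.2 (gm_pos _ (hU1 q))
  have hinj : Function.Injective W := by
    intro σ τ h
    have h1 := hU (fun r => e (σ r)) (fun r => e (τ r)) h
    ext r
    have h2 := e.injective (congrFun h1 r)
    exact congrArg Fin.val h2
  obtain ⟨N1, hN1⟩ := expsum_ne W hW hinj (fun σ => ((Equiv.Perm.sign σ : ℤ) : ℝ)) (by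
    intro σ
    rcases Int.units_eq_one_or (Equiv.Perm.sign σ) with h | h <;> simp [h])
  refine ⟨N1, fun N hN c hc => ?_⟩
  let V : Matrix (Fin M) (Fin M) ℝ := fun q r => ((gm (e q) (U r))⁻¹) ^ N
  have hdet : V.det ≠ 0 := by
    rw [Matrix.det_apply']
    have h1 : ∑ σ : Equiv.Perm (Fin M), ((Equiv.Perm.sign σ : ℤ) : ℝ) * ∏ r, V (σ r) r =
        ∑ σ, ((Equiv.Perm.sign σ : ℤ) : ℝ) * W σ ^ N := by
      refine Finset.sum_congr rfl fun σ _ => ?_
      rw [← Finset.prod_pow]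
    rw [h1]
    exact hN1 N hN
  have hz : Matrix.vecMul (fun q => c (e q)) V = 0 := by
    funext r
    simp only [Matrix.vecMul, dotProduct, Pi.zero_apply, V]
    have h1 := hc (U r) (hU1 r)
    rw [← Equiv.sum_comp e] at h1
    rw [← h1]
    refine Finset.sum_congr rfl fun q _ => ?_
    rw [inv_pow]
    unfold gm
    rw [mul_pow, mul_pow, ← pow_mul, ← pow_mul, ← pow_mul]
    simp only [mul_comm N]
  have h0 := Matrix.eq_zero_of_vecMul_eq_zero hdet hz
  intro s
  have h1 := congrFun h0 (e.symm s)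
  simpa using h1

end Pool.Agent.K4H92.DF
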