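import Mathlib

/-! MP_df6954_nt, piece P5: if `∑ s, (D^ρ a)_s = 0` for all `ρ` then
`∑ s, (a_s f_s)(T) / f_s(U) = 0` for all real `U > 1` and all real `T`. -/

set_option autoImplicit false

namespace Pool.Agent.K4H92.DF

open Polynomial Finset

section general
variable {R : Type*} [CommRing R]

/-- `f_s = X^(N i) (X+1)^(N j) (X-1)^(N l)` -/
noncomputable def ff (R : Type*) [CommRing R] (N : ℕ) {k : ℕ} (s : Fin k × Fin k × Fin k) : R[X] :=
  X ^ (N * (s.1 : ℕ)) * (X + 1) ^ (N * (s.2.1 : ℕ)) * (X - 1) ^ (N * (s.2.2 : ℕ))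

/-- `w = X (X^2 - 1)` -/
noncomputable def ww (R : Type*) [CommRing R] : R[X] := X * (X ^ 2 - 1)

/-- `c_s = i (X^2-1) + j X (X-1) + l X (X+1)` -/
noncomputable def cc (R : Type*) [CommRing R] {k : ℕ} (s : Fin k × Fin k × Fin k) : R[X] :=
  ((s.1 : ℕ) : R[X]) * (X ^ 2 - 1) + ((s.2.1 : ℕ) : R[X]) * (X * (X - 1)) +
    ((s.2.2 : ℕ) : R[X]) * (X * (X + 1))

/-- `(D a)_s = w a_s' + N c_s a_s` -/
noncomputable def DD (N : ℕ) {k : ℕ} (a : Fin k × Fin k × Fin k → R[X]) :
    Fin k × Fin k × Fin k → R[X] :=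
  fun s => ww R * derivative (a s) + (N : R[X]) * cc R s * a s

/-- `w p'` -/
noncomputable def EE (p : R[X]) : R[X] := ww R * derivative p

lemma X_mul_derivative_pow (p : R[X]) (hp : derivative p = 1) (m : ℕ) :
    p * derivative (p ^ m) = (m : R[X]) * p ^ m := by
  rw [derivative_pow, hp]
  rcases m with _ | m
  · simp
  · simp only [Nat.succ_sub_one, map_natCast]
    ring

lemma ww_mul_derivative_ff (N : ℕ) {k : ℕ} (s : Fin k × Fin k × Fin k) :
    ww R * derivative (ff R N s) = (N : R[X]) * cc R s * ff R N s := by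
  have h1 := X_mul_derivative_pow (X : R[X]) (by simp) (N * (s.1 : ℕ))
  have h2 := X_mul_derivative_pow (X + 1 : R[X]) (by simp) (N * (s.2.1 : ℕ))
  have h3 := X_mul_derivative_pow (X - 1 : R[X]) (by simp) (N * (s.2.2 : ℕ))
  unfold ff ww cc
  rw [derivative_mul, derivative_mul]
  push_cast at h1 h2 h3
  set A := (X : R[X]) ^ (N * (s.1 : ℕ))
  set B := (X + 1 : R[X]) ^ (N * (s.2.1 : ℕ))
  set C' := (X - 1 : R[X]) ^ (N * (s.2.2 : ℕ))
  linear_combination (X ^ 2 - 1) * B * C' * h1 + X * (X - 1) * A * C' * h2 +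
    X * (X + 1) * A * B * h3

lemma DD_mul_ff (N : ℕ) {k : ℕ} (a : Fin k × Fin k × Fin k → R[X]) (s : Fin k × Fin k × Fin k) :
    DD N a s * ff R N s = EE (a s * ff R N s) := by
  unfold DD EE
  rw [derivative_mul]
  linear_combination -(a s) * ww_mul_derivative_ff (R := R) N s

lemma DD_iterate_mul_ff (N : ℕ) {k : ℕ} (ρ : ℕ) (a : Fin k × Fin k × Fin k → R[X])
    (s : Fin k × Fin k × Fin k) :
    ((DD N)^[ρ] a) s * ff R N s = EE^[ρ] (a s * ff R N s) := by
  induction ρ with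
  | zero => rfl
  | succ ρ ih =>
    rw [Function.iterate_succ_apply', Function.iterate_succ_apply', DD_mul_ff, ih]

lemma EE_iterate_sum {S : Type*} (A : Finset S) (c : S → R) (h : S → R[X]) (ρ : ℕ) :
    EE^[ρ] (∑ s ∈ A, C (c s) * h s) = ∑ s ∈ A, C (c s) * EE^[ρ] (h s) := by
  induction ρ with
  | zero => rfl
  | succ ρ ih =>
    rw [Function.iterate_succ_apply', ih]
    unfold EE
    rw [derivative_sum, Finset.mul_sum]
    refine Finset.sum_congr rfl fun s _ => ?_
    rw [Function.iterate_succ_apply', derivative_C_mul]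
    ring

end general

lemma dvd_of_EE (U : ℝ) (hU : 1 < U) : ∀ (m : ℕ) (q : ℝ[X]), (X - C U) ^ m ∣ q →
    eval U (EE^[m] q) = 0 → (X - C U) ^ (m + 1) ∣ q := by
  intro m
  induction m with
  | zero =>
    intro q _ h
    rw [zero_add, pow_one, dvd_iff_isRoot]
    exact h
  | succ m ih =>
    rintro q ⟨r, rfl⟩ h
    have hE : EE ((X - C U) ^ (m + 1) * r) =
        (X - C U) ^ m * (ww ℝ * (((m : ℝ[X]) + 1) * r + (X - C U) * derivative r)) := by
      unfold EE
      rw [derivative_mul, derivative_pow]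
      simp only [derivative_sub, derivative_X, derivative_C, Nat.add_sub_cancel, map_natCast]
      push_cast
      ring
    rw [Function.iterate_succ_apply] at h
    have h1 := ih _ (by rw [hE]; exact dvd_mul_right _ _) h
    rw [hE, pow_succ (X - C U) m] at h1
    have h2 : (X - C U) ∣ ww ℝ * (((m : ℝ[X]) + 1) * r + (X - C U) * derivative r) :=
      (mul_dvd_mul_iff_left (pow_ne_zero m (X_sub_C_ne_zero U))).1 h1
    rw [dvd_iff_isRoot, IsRoot.def, eval_mul, eval_add, eval_mul, eval_mul] at h2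
    simp only [ww, eval_mul, eval_sub, eval_pow, eval_X, eval_one, eval_add, eval_natCast, eval_C,
      sub_self, zero_mul, add_zero] at h2
    have h3 : U * (U ^ 2 - 1) ≠ 0 := by
      have : 0 < U * (U ^ 2 - 1) := by nlinarith
      exact this.ne'
    have h4 : ((m : ℝ) + 1) ≠ 0 := by positivity
    have h5 : eval U r = 0 := by
      rcases mul_eq_zero.1 h2 with h | h
      · exact absurd h h3
      · rcases mul_eq_zero.1 h with h | h
        · exact absurd h h4
        · exact h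
    have h6 : (X - C U) ∣ r := dvd_iff_isRoot.2 h5
    rw [pow_succ (X - C U) (m + 1)]
    exact mul_dvd_mul_left _ h6

lemma eq_zero_of_EE (U : ℝ) (hU : 1 < U) (q : ℝ[X]) (h : ∀ ρ, eval U (EE^[ρ] q) = 0) : q = 0 := by
  by_contra hq
  have h1 : ∀ m : ℕ, (X - C U) ^ m ∣ q := by
    intro m
    induction m with
    | zero => simp
    | succ m ih => exact dvd_of_EE U hU m q ih (h m)
  have h2 := natDegree_le_of_dvd (h1 (q.natDegree + 1)) hq
  rw [natDegree_pow, natDegree_X_sub_C] at h2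
  omega

lemma map_ff (N : ℕ) {k : ℕ} (s : Fin k × Fin k × Fin k) :
    (ff ℤ N s).map (Int.castRingHom ℝ) = ff ℝ N s := by
  simp [ff, Polynomial.map_mul, Polynomial.map_pow]

lemma map_DD (N : ℕ) {k : ℕ} (a : Fin k × Fin k × Fin k → ℤ[X]) (s : Fin k × Fin k × Fin k) :
    (DD N a s).map (Int.castRingHom ℝ) = DD N (fun t => (a t).map (Int.castRingHom ℝ)) s := by
  simp [DD, ww, cc, Polynomial.map_mul, Polynomial.map_pow, derivative_map]

lemma map_DD_iterate (N : ℕ) {k : ℕ} (ρ : ℕ) (a : Fin k × Fin k × Fin k → ℤ[X]) :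
    (fun s => (((DD N)^[ρ] a) s).map (Int.castRingHom ℝ)) =
      (DD N)^[ρ] (fun t => (a t).map (Int.castRingHom ℝ)) := by
  induction ρ with
  | zero => rfl
  | succ ρ ih =>
    rw [Function.iterate_succ_apply', Function.iterate_succ_apply', ← ih]
    funext s
    exact map_DD N _ s

lemma ff_eval (N : ℕ) {k : ℕ} (s : Fin k × Fin k × Fin k) (U : ℝ) :
    (ff ℝ N s).eval U = U ^ (N * (s.1 : ℕ)) * (U + 1) ^ (N * (s.2.1 : ℕ)) *
      (U - 1) ^ (N * (s.2.2 : ℕ)) := by
  simp [ff]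

/-- Piece P5. -/
theorem taylor (N : ℕ) {k : ℕ} (a : Fin k × Fin k × Fin k → ℤ[X])
    (h : ∀ ρ : ℕ, ∑ s, ((DD N)^[ρ] a) s = 0) (U : ℝ) (hU : 1 < U) (T : ℝ) :
    ∑ s, aeval T (a s * ff ℤ N s) * (U ^ (N * (s.1 : ℕ)) * (U + 1) ^ (N * (s.2.1 : ℕ)) *
      (U - 1) ^ (N * (s.2.2 : ℕ)))⁻¹ = 0 := by
  set b : Fin k × Fin k × Fin k → ℝ[X] := fun t => (a t).map (Int.castRingHom ℝ) with hb
  set lam : Fin k × Fin k × Fin k → ℝ := fun s => ((ff ℝ N s).eval U)⁻¹ with hlam
  have hf : ∀ s : Fin k × Fin k × Fin k, (ff ℝ N s).eval U ≠ 0 := by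
    intro s
    rw [ff_eval]
    have h1 : 0 < U := by linarith
    have h2 : 0 < U + 1 := by linarith
    have h3 : 0 < U - 1 := by linarith
    positivity
  have hq : (∑ s, C (lam s) * (b s * ff ℝ N s)) = 0 := by
    apply eq_zero_of_EE U hU
    intro ρ
    rw [EE_iterate_sum, eval_finsetSum]
    have h1 : ∀ s, eval U (C (lam s) * EE^[ρ] (b s * ff ℝ N s)) =
        eval U ((((DD N)^[ρ] a) s).map (Int.castRingHom ℝ)) := by
      intro s
      rw [← DD_iterate_mul_ff, eval_mul, eval_mul, eval_C]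
      have h2 := congrFun (map_DD_iterate N ρ a) s
      rw [h2]
      have h3 : lam s * (eval U ((DD N)^[ρ] b s) * eval U (ff ℝ N s)) = eval U ((DD N)^[ρ] b s) := by
        simp only [hlam]
        field_simp [hf s]
      exact h3
    rw [Finset.sum_congr rfl fun s _ => h1 s, ← eval_finsetSum, ← Polynomial.map_sum, h ρ]
    simp
  have h3 := congrArg (eval T) hq
  rw [eval_finsetSum, eval_zero] at h3
  rw [← h3]
  refine Finset.sum_congr rfl fun s _ => ?_
  rw [eval_mul, eval_C]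
  simp only [hlam, hb, ff_eval]
  rw [aeval_def, ← eval_map, Polynomial.map_mul]
  have h4 : Polynomial.map (algebraMap ℤ ℝ) (ff ℤ N s) = ff ℝ N s := map_ff N s
  rw [h4, mul_comm]
  rfl

end Pool.Agent.K4H92.DF
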